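import Pool.Agent.ElemSeq.Lower

/-! MP_2a6a08_co: the function `e` for elementary sequences, to second order.

With `φ` the golden ratio, `f_n` the Fibonacci numbers and `c = log (φ² / 2) = 0.2692...`:
for every `ε` in `(0, 1/10]` and every large `n`, every `k` with `f_n < k < f_(n+1)` has
`e k ≤ n + (c + ε) n / log n`, and all but at most `f_n ^ (1 - ε)` of these `k` have
`e k ≥ n + (c - ε) n / log n`. -/

namespace Pool.Agent.Results.MP_2a6a08_co.SecondOrder

open Filter

theorem result (ε : ℝ) (hε : 0 < ε) (hε1 : ε ≤ 1 / 10) :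
    ∀ᶠ n : ℕ in atTop,
      (∀ k : ℕ, Nat.fib n < k → k < Nat.fib (n + 1) →
        (Pool.Agent.ElemSeq.e k : ℝ) ≤
          n + (Real.log (Real.goldenRatio ^ 2 / 2) + ε) * (n / Real.log n)) ∧
      ((((Finset.Ioo (Nat.fib n) (Nat.fib (n + 1))).filter
        (fun k => (Pool.Agent.ElemSeq.e k : ℝ) <
          n + (Real.log (Real.goldenRatio ^ 2 / 2) - ε) * (n / Real.log n))).card : ℕ) : ℝ)
        ≤ (Nat.fib n : ℝ) ^ (1 - ε) :=
  (Pool.Agent.ElemSeq.sharp_upper ε hε).and (Pool.Agent.ElemSeq.sharp_lower ε hε hε1)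

end Pool.Agent.Results.MP_2a6a08_co.SecondOrder
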